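import Mathlib

set_option autoImplicit false

namespace Pool.Agent.Results.MP_8c2fb0_lc.Congruences

/-- Euclidean 3-space. -/
abbrev E := EuclideanSpace ℝ (Fin 3)

/-- The unit sphere `S^2`. -/
def S2 : Set E := {x | ‖x‖ = 1}

/-- Auxiliary form of the splitting: the sphere is split into the three pairwise disjoint pieces
`A`, `g(A)`, `h(A)`, where `g` and `h` are linear isometries (elements of `O_3`). -/
structure Sp (g h : E ≃ₗᵢ[ℝ] E) (A : Set E) : Prop where
  union : A ∪ g '' A ∪ h '' A = S2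
  disj12 : Disjoint A (g '' A)
  disj13 : Disjoint A (h '' A)
  disj23 : Disjoint (g '' A) (h '' A)

variable {g h : E ≃ₗᵢ[ℝ] E} {A : Set E}

lemma three_dvd (hs : Sp g h A) (O : Finset E) (hO : (O : Set E) ⊆ S2)
    (hg : ∀ x ∈ O, g x ∈ O) (hh : ∀ x ∈ O, h x ∈ O) : 3 ∣ O.card := by
  classical
  -- the images of `O` under `g` and `h` are `O`
  have hgO : O.image g = O := by
    apply Finset.eq_of_subset_of_card_le
    · intro x hx
      obtain ⟨y, hy, rfl⟩ := Finset.mem_image.1 hx
      exact hg y hy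
    · rw [Finset.card_image_of_injective _ g.injective]
  have hhO : O.image h = O := by
    apply Finset.eq_of_subset_of_card_le
    · intro x hx
      obtain ⟨y, hy, rfl⟩ := Finset.mem_image.1 hx
      exact hh y hy
    · rw [Finset.card_image_of_injective _ h.injective]
  let P := O.filter (fun x => x ∈ A)
  have h1 : O = P ∪ P.image g ∪ P.image h := by
    ext x
    constructor
    · intro hx
      have hxS := hO hx
      rw [← hs.union] at hxS
      rcases hxS with (hx1 | hx2) | hx3
      · exact Finset.mem_union_left _ (Finset.mem_union_left _ (Finset.mem_filter.2 ⟨hx, hx1⟩))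
      · obtain ⟨y, hy, rfl⟩ := hx2
        have hyO : y ∈ O := by
          rw [← hgO] at hx
          obtain ⟨z, hz, hzy⟩ := Finset.mem_image.1 hx
          rwa [g.injective hzy] at hz
        exact Finset.mem_union_left _ (Finset.mem_union_right _
          (Finset.mem_image_of_mem g (Finset.mem_filter.2 ⟨hyO, hy⟩)))
      · obtain ⟨y, hy, rfl⟩ := hx3
        have hyO : y ∈ O := by
          rw [← hhO] at hx
          obtain ⟨z, hz, hzy⟩ := Finset.mem_image.1 hx
          rwa [h.injective hzy] at hz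
        exact Finset.mem_union_right _
          (Finset.mem_image_of_mem h (Finset.mem_filter.2 ⟨hyO, hy⟩))
    · intro hx
      rcases Finset.mem_union.1 hx with hx | hx
      · rcases Finset.mem_union.1 hx with hx | hx
        · exact (Finset.mem_filter.1 hx).1
        · obtain ⟨y, hy, rfl⟩ := Finset.mem_image.1 hx
          exact hg y (Finset.mem_filter.1 hy).1
      · obtain ⟨y, hy, rfl⟩ := Finset.mem_image.1 hx
        exact hh y (Finset.mem_filter.1 hy).1
  have d12 : Disjoint P (P.image g) := by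
    rw [Finset.disjoint_left]
    intro x hx hx'
    obtain ⟨y, hy, rfl⟩ := Finset.mem_image.1 hx'
    exact Set.disjoint_left.1 hs.disj12 (Finset.mem_filter.1 hx).2
      ⟨y, (Finset.mem_filter.1 hy).2, rfl⟩
  have d3 : Disjoint (P ∪ P.image g) (P.image h) := by
    rw [Finset.disjoint_left]
    intro x hx hx'
    obtain ⟨y, hy, rfl⟩ := Finset.mem_image.1 hx'
    have hyA : h y ∈ h '' A := ⟨y, (Finset.mem_filter.1 hy).2, rfl⟩
    rcases Finset.mem_union.1 hx with hx | hx
    · exact Set.disjoint_left.1 hs.disj13 (Finset.mem_filter.1 hx).2 hyA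
    · obtain ⟨z, hz, hzy⟩ := Finset.mem_image.1 hx
      rw [← hzy] at hyA
      exact Set.disjoint_left.1 hs.disj23 ⟨z, (Finset.mem_filter.1 hz).2, rfl⟩ hyA
  have hc : O.card = 3 * P.card := by
    conv_lhs => rw [h1]
    rw [Finset.card_union_of_disjoint d3, Finset.card_union_of_disjoint d12,
      Finset.card_image_of_injective _ g.injective, Finset.card_image_of_injective _ h.injective]
    ring
  exact ⟨_, hc⟩

lemma no_common_axis (hs : Sp g h A) (v : E) (hv : v ≠ 0) (hg : g v = v ∨ g v = -v)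
    (hh : h v = v ∨ h v = -v) : False := by
  classical
  have hn : ‖v‖ ≠ 0 := norm_ne_zero_iff.2 hv
  let p : E := ‖v‖⁻¹ • v
  have hp : ‖p‖ = 1 := by
    simp [p, norm_smul, hn]
  have hgp : g p = p ∨ g p = -p := by
    rcases hg with hg | hg
    · left; simp [p, hg]
    · right; simp [p, hg]
  have hhp : h p = p ∨ h p = -p := by
    rcases hh with hh | hh
    · left; simp [p, hh]
    · right; simp [p, hh]
  have hpne : p ≠ -p := by
    intro hpp
    have : p = 0 := by
      have h2 : (2 : ℝ) • p = 0 := by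
        rw [two_smul]
        nth_rewrite 2 [hpp]
        simp
      simpa using h2
    rw [this] at hp
    simp at hp
  have key := three_dvd hs {p, -p} ?_ ?_ ?_
  · rw [Finset.card_pair hpne] at key
    omega
  · intro x hx
    simp only [Finset.coe_insert, Finset.coe_singleton, Set.mem_insert_iff,
      Set.mem_singleton_iff] at hx
    rcases hx with rfl | rfl
    · exact hp
    · show ‖-p‖ = 1
      rw [norm_neg, hp]
  · intro x hx
    simp only [Finset.mem_insert, Finset.mem_singleton] at hx ⊢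
    rcases hx with rfl | rfl
    · exact hgp
    · rw [map_neg]
      rcases hgp with h1 | h1
      · right; rw [h1]
      · left; rw [h1, neg_neg]
  · intro x hx
    simp only [Finset.mem_insert, Finset.mem_singleton] at hx ⊢
    rcases hx with rfl | rfl
    · exact hhp
    · rw [map_neg]
      rcases hhp with h1 | h1
      · right; rw [h1]
      · left; rw [h1, neg_neg]

lemma nonempty_A (hs : Sp g h A) : A.Nonempty := by
  have h1 : (EuclideanSpace.single (0 : Fin 3) (1 : ℝ) : E) ∈ S2 := by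
    show ‖_‖ = (1 : ℝ)
    simp
  rw [← hs.union] at h1
  rcases h1 with (h1 | h1) | h1
  · exact ⟨_, h1⟩
  · obtain ⟨y, hy, -⟩ := h1
    exact ⟨y, hy⟩
  · obtain ⟨y, hy, -⟩ := h1
    exact ⟨y, hy⟩

lemma subset_S2 (hs : Sp g h A) {a : E} (ha : a ∈ A) : ‖a‖ = 1 := by
  have : a ∈ S2 := by
    rw [← hs.union]
    exact Or.inl (Or.inl ha)
  exact this

lemma swap (hs : Sp g h A) : Sp h g A where
  union := by rw [← hs.union, Set.union_right_comm]
  disj12 := hs.disj13
  disj13 := hs.disj12
  disj23 := hs.disj23.symm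

lemma mem_cases (hs : Sp g h A) {x : E} (hx : ‖x‖ = 1) :
    x ∈ A ∨ (∃ b ∈ A, g b = x) ∨ ∃ b ∈ A, h b = x := by
  have h1 : x ∈ S2 := hx
  rw [← hs.union] at h1
  rcases h1 with (h1 | h1) | h1
  · exact Or.inl h1
  · exact Or.inr (Or.inl h1)
  · exact Or.inr (Or.inr h1)

lemma not_neg (hs : Sp g h A) : ¬ ∀ x, g x = -x := by
  intro hg
  obtain ⟨a, ha⟩ := nonempty_A hs
  have hn : ‖-(h a)‖ = 1 := by
    rw [norm_neg, h.norm_map, subset_S2 hs ha]
  rcases mem_cases hs hn with h1 | ⟨b, hb, h1⟩ | ⟨b, hb, h1⟩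
  · have hm : h a ∈ g '' A := ⟨_, h1, by rw [hg, neg_neg]⟩
    exact Set.disjoint_left.1 hs.disj23 hm ⟨a, ha, rfl⟩
  · have h2 : b = h a := by
      rw [hg] at h1
      exact neg_injective h1
    exact Set.disjoint_left.1 hs.disj13 hb ⟨a, ha, h2.symm⟩
  · have h2 : b = -a := by
      apply h.injective
      rw [h1, map_neg]
    refine Set.disjoint_left.1 hs.disj12 hb ⟨a, ha, ?_⟩
    rw [hg, h2]

lemma not_neg' (hs : Sp g h A) : ¬ ∀ x, h x = -(g x) := by
  intro hg
  obtain ⟨a, ha⟩ := nonempty_A hs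
  have hn : ‖-a‖ = 1 := by
    rw [norm_neg, subset_S2 hs ha]
  rcases mem_cases hs hn with h1 | ⟨b, hb, h1⟩ | ⟨b, hb, h1⟩
  · have hm : h a ∈ g '' A := ⟨_, h1, by rw [map_neg, hg]⟩
    exact Set.disjoint_left.1 hs.disj23 hm ⟨a, ha, rfl⟩
  · refine Set.disjoint_left.1 hs.disj13 ha ⟨b, hb, ?_⟩
    rw [hg, h1, neg_neg]
  · refine Set.disjoint_left.1 hs.disj12 ha ⟨b, hb, ?_⟩
    rw [hg] at h1
    exact neg_injective h1

/-- A linear isometry `z` of order three of Euclidean 3-space fixes a nonzero vector. -/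
lemma exists_fixed (z : E ≃ₗᵢ[ℝ] E) (hz : z * z * z = 1) : ∃ v : E, v ≠ 0 ∧ z v = v := by
  by_contra hcon
  push Not at hcon
  have hz3 : ∀ v, z (z (z v)) = v := fun v => by
    have := congrArg (fun (t : E ≃ₗᵢ[ℝ] E) => t v) hz
    exact this
  have h0 : ∀ v, v + z v + z (z v) = 0 := by
    intro v
    by_contra hv
    apply hcon _ hv
    rw [map_add, map_add, hz3]
    abel
  let T : E →ₗ[ℝ] E := z.toLinearEquiv.toLinearMap + (1 / 2 : ℝ) • LinearMap.id
  have hT : T * T = (-3 / 4 : ℝ) • (1 : E →ₗ[ℝ] E) := by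
    ext1 v
    have h1 : T v = z v + (1 / 2 : ℝ) • v := rfl
    have h2 : (T * T) v = T (T v) := rfl
    have h3 : T (T v) = z (z v + (1 / 2 : ℝ) • v) + (1 / 2 : ℝ) • (z v + (1 / 2 : ℝ) • v) := rfl
    have h4 : z (z v) = -v - z v := by
      have := h0 v
      rw [← sub_eq_zero]
      rw [← this]
      abel
    have h5 : ((-3 / 4 : ℝ) • (1 : E →ₗ[ℝ] E)) v = (-3 / 4 : ℝ) • v := rfl
    rw [h2, h3, h5, map_add, map_smul, h4]
    module
  have hd := congrArg LinearMap.det hT
  rw [map_mul, LinearMap.det_smul, map_one] at hd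
  have hf : Module.finrank ℝ E = 3 := by simp
  rw [hf] at hd
  nlinarith [mul_self_nonneg (LinearMap.det T)]

/-- If `z ≠ 1` has order three, two fixed unit vectors are equal or opposite. -/
lemma fixed_unique (z : E ≃ₗᵢ[ℝ] E) (hz : z * z * z = 1) (hz1 : z ≠ 1) (v w : E) (hv : v ≠ 0)
    (hzv : z v = v) (hzw : z w = w) : ∃ c : ℝ, w = c • v := by
  have hz3 : ∀ v, z (z (z v)) = v := fun v => by
    have := congrArg (fun (t : E ≃ₗᵢ[ℝ] E) => t v) hz
    exact this
  let F : Submodule ℝ E := LinearMap.ker (z.toLinearEquiv.toLinearMap - LinearMap.id)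
  have hF : ∀ x, x ∈ F ↔ z x = x := by
    intro x
    rw [LinearMap.mem_ker, LinearMap.sub_apply, sub_eq_zero]
    rfl
  have hf : Module.finrank ℝ E = 3 := by simp
  by_contra hcon
  -- `F` has dimension at least two
  have hF2 : 2 ≤ Module.finrank ℝ F := by
    by_contra hlt
    have h1 : Module.finrank ℝ F ≤ 1 := by omega
    rw [finrank_le_one_iff] at h1
    obtain ⟨u, hu⟩ := h1
    obtain ⟨c1, hc1⟩ := hu ⟨v, (hF v).2 hzv⟩
    obtain ⟨c2, hc2⟩ := hu ⟨w, (hF w).2 hzw⟩
    have e1 : c1 • (u : E) = v := congrArg Subtype.val hc1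
    have e2 : c2 • (u : E) = w := congrArg Subtype.val hc2
    have hc10 : c1 ≠ 0 := by
      rintro rfl
      rw [zero_smul] at e1
      exact hv e1.symm
    apply hcon
    refine ⟨c2 / c1, ?_⟩
    rw [← e1, ← e2, smul_smul, div_mul_cancel₀ _ hc10]
  have hsum := Submodule.finrank_add_finrank_orthogonal F
  rw [hf] at hsum
  have hFo : Module.finrank ℝ Fᗮ ≤ 1 := by omega
  -- the orthogonal complement is trivial
  have hbot : Fᗮ = ⊥ := by
    rw [Submodule.eq_bot_iff]
    intro u hu
    by_contra hu0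
    have hzu : z u ∈ Fᗮ := by
      rw [Submodule.mem_orthogonal] at hu ⊢
      intro x hx
      have hx' := (hF x).1 hx
      rw [← hx', z.inner_map_map]
      exact hu x hx
    rw [finrank_le_one_iff] at hFo
    obtain ⟨t, ht⟩ := hFo
    obtain ⟨c1, hc1⟩ := ht ⟨u, hu⟩
    obtain ⟨c2, hc2⟩ := ht ⟨z u, hzu⟩
    have e1 : c1 • (t : E) = u := congrArg Subtype.val hc1
    have e2 : c2 • (t : E) = z u := congrArg Subtype.val hc2
    have hc10 : c1 ≠ 0 := by
      rintro rfl
      rw [zero_smul] at e1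
      exact hu0 e1.symm
    have e3 : z u = (c2 / c1) • u := by
      rw [← e1] at *
      rw [← e2, smul_smul, div_mul_cancel₀ _ hc10]
    set c := c2 / c1 with hc
    have e4 : (c ^ 3 - 1) • u = 0 := by
      have h3 := hz3 u
      rw [e3, map_smul, e3, map_smul, map_smul, e3] at h3
      rw [sub_smul, one_smul, sub_eq_zero]
      nth_rewrite 2 [← h3]
      rw [smul_smul, smul_smul]
      congr 1
      ring
    rcases smul_eq_zero.1 e4 with h4 | h4
    · have hc1' : c = 1 := by
        have h5 : (c - 1) * (c ^ 2 + c + 1) = 0 := by linarith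
        rcases mul_eq_zero.1 h5 with h6 | h6
        · linarith
        · nlinarith [sq_nonneg (c + 1 / 2)]
      rw [hc1', one_smul] at e3
      have huF := (hF u).2 e3
      have h7 := (Submodule.mem_orthogonal _ _).1 hu u huF
      exact hu0 (inner_self_eq_zero.1 h7)
    · exact hu0 h4
  have htop : F = ⊤ := by
    rwa [Submodule.orthogonal_eq_bot_iff] at hbot
  apply hz1
  ext1 x
  have hx : x ∈ F := by rw [htop]; trivial
  exact (hF x).1 hx

/-- A finite `3`-group of linear isometries of Euclidean 3-space fixes a point of the sphere. -/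
lemma exists_fixed_point (G : Subgroup (E ≃ₗᵢ[ℝ] E)) [Finite G] (P : Subgroup G)
    (hP : IsPGroup 3 P) : ∃ p : E, ‖p‖ = 1 ∧ ∀ r ∈ P, (r : E ≃ₗᵢ[ℝ] E) p = p := by
  have : Fact (Nat.Prime 3) := ⟨Nat.prime_three⟩
  by_cases htriv : Nontrivial P
  · have := htriv
    have : Finite P := inferInstance
    obtain ⟨z0, hz0c, hz0⟩ : ∃ z0 : P, z0 ∈ Subgroup.center P ∧ z0 ≠ 1 := by
      have := hP.center_nontrivial
      obtain ⟨z, hz⟩ := exists_ne (1 : Subgroup.center P)
      exact ⟨z, z.2, fun h => hz (Subtype.ext h)⟩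
    -- a central element of order three
    obtain ⟨k, hk⟩ := (IsPGroup.iff_orderOf.1 hP) z0
    have hk0 : k ≠ 0 := by
      rintro rfl
      rw [pow_zero, orderOf_eq_one_iff] at hk
      exact hz0 hk
    obtain ⟨m, rfl⟩ := Nat.exists_eq_succ_of_ne_zero hk0
    let z1 : P := z0 ^ (3 ^ m)
    have hz1o : orderOf z1 = 3 := by
      rw [orderOf_pow' z0 (by positivity), hk]
      have : Nat.gcd (3 ^ (m + 1)) (3 ^ m) = 3 ^ m :=
        Nat.gcd_eq_right (pow_dvd_pow 3 (Nat.le_succ m))
      rw [Nat.succ_eq_add_one, this, pow_succ, Nat.mul_div_cancel_left _ (by positivity)]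
    have hz1c : z1 ∈ Subgroup.center P := Subgroup.pow_mem _ hz0c _
    let z : E ≃ₗᵢ[ℝ] E := ((z1 : G) : E ≃ₗᵢ[ℝ] E)
    have hz3 : z * z * z = 1 := by
      have h1 := pow_orderOf_eq_one z1
      rw [hz1o] at h1
      have h2 : z ^ 3 = 1 := by
        have := congrArg (fun t : P => ((t : G) : E ≃ₗᵢ[ℝ] E)) h1
        simpa using this
      rw [← pow_three', h2]
    have hz1' : z ≠ 1 := by
      intro h1
      have h2 : z1 = 1 := by
        apply Subtype.ext
        apply Subtype.ext
        exact h1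
      rw [h2, orderOf_one] at hz1o
      omega
    obtain ⟨v, hv, hzv⟩ := exists_fixed z hz3
    have hn : ‖v‖ ≠ 0 := norm_ne_zero_iff.2 hv
    let p : E := ‖v‖⁻¹ • v
    have hp : ‖p‖ = 1 := by
      simp [p, norm_smul, hn]
    have hp0 : p ≠ 0 := by
      intro h0
      rw [h0] at hp
      simp at hp
    have hzp : z p = p := by
      simp only [p, map_smul, hzv]
    refine ⟨p, hp, ?_⟩
    intro r hr
    -- `r` commutes with `z`
    have hcomm : ∀ x, z ((r : E ≃ₗᵢ[ℝ] E) x) = (r : E ≃ₗᵢ[ℝ] E) (z x) := by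
      intro x
      have h1 := (Subgroup.mem_center_iff.1 hz1c) ⟨r, hr⟩
      have h2 := congrArg (fun t : P => (((t : G) : E ≃ₗᵢ[ℝ] E)) x) h1
      exact h2.symm
    obtain ⟨c, hc⟩ := fixed_unique z hz3 hz1' p ((r : E ≃ₗᵢ[ℝ] E) p) hp0 hzp (by rw [hcomm, hzp])
    have hcn : |c| = 1 := by
      have h1 : ‖(r : E ≃ₗᵢ[ℝ] E) p‖ = 1 := by rw [LinearIsometryEquiv.norm_map, hp]
      rw [hc, norm_smul, hp, mul_one] at h1
      exact h1
    obtain ⟨j, hj⟩ := (IsPGroup.iff_orderOf.1 hP) ⟨r, hr⟩
    have hpow : ∀ n : ℕ, ((r : E ≃ₗᵢ[ℝ] E) ^ n) p = (c ^ n) • p := by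
      intro n
      induction n with
      | zero => simp
      | succ n ih =>
        rw [pow_succ', pow_succ]
        show (r : E ≃ₗᵢ[ℝ] E) (((r : E ≃ₗᵢ[ℝ] E) ^ n) p) = _
        rw [ih, map_smul, hc, smul_smul]
    have hone : ((r : E ≃ₗᵢ[ℝ] E) ^ (3 ^ j)) = 1 := by
      have h1 : (⟨r, hr⟩ : P) ^ (3 ^ j) = 1 := by
        rw [← hj]
        exact pow_orderOf_eq_one _
      have := congrArg (fun t : P => ((t : G) : E ≃ₗᵢ[ℝ] E)) h1
      simpa using this
    have hcp : c ^ (3 ^ j) = 1 := by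
      have h1 := hpow (3 ^ j)
      rw [hone] at h1
      have h2 : (c ^ (3 ^ j) - 1) • p = 0 := by
        rw [sub_smul, one_smul, ← h1]
        simp
      rcases smul_eq_zero.1 h2 with h3 | h3
      · linarith
      · exact absurd h3 hp0
    have hc1 : c = 1 := by
      rcases (abs_eq (by norm_num : (0 : ℝ) ≤ 1)).1 hcn with h1 | h1
      · exact h1
      · exfalso
        rw [h1, Odd.neg_one_pow (Odd.pow (by decide))] at hcp
        norm_num at hcp
    rw [hc, hc1, one_smul]
  · refine ⟨EuclideanSpace.single (0 : Fin 3) (1 : ℝ), by simp, ?_⟩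
    intro r hr
    rw [not_nontrivial_iff_subsingleton] at htriv
    have h1 : (⟨r, hr⟩ : P) = 1 := Subsingleton.elim _ _
    have h2 : r = 1 := congrArg Subtype.val h1
    rw [h2]
    rfl

/-- The two congruences of a splitting generate an infinite group. -/
lemma infinite_group (hs : Sp g h A) :
    Infinite (Subgroup.closure ({g, h} : Set (E ≃ₗᵢ[ℝ] E))) := by
  classical
  by_contra hcon
  rw [not_infinite_iff_finite] at hcon
  set G : Subgroup (E ≃ₗᵢ[ℝ] E) := Subgroup.closure ({g, h} : Set (E ≃ₗᵢ[ℝ] E)) with hG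
  have hgG : g ∈ G := Subgroup.subset_closure (by simp)
  have hhG : h ∈ G := Subgroup.subset_closure (by simp)
  have : Fact (Nat.Prime 3) := ⟨Nat.prime_three⟩
  let P : Sylow 3 G := default
  obtain ⟨p, hp, hpf⟩ := exists_fixed_point G P P.isPGroup'
  letI act : MulAction G E :=
    { smul := fun r x => (r : E ≃ₗᵢ[ℝ] E) x
      one_smul := fun _ => rfl
      mul_smul := fun _ _ _ => rfl }
  have hsm : ∀ (r : G) (x : E), r • x = (r : E ≃ₗᵢ[ℝ] E) x := fun _ _ => rfl
  have hfin : (MulAction.orbit G p).Finite := Set.finite_range _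
  have h3 : 3 ∣ hfin.toFinset.card := by
    apply three_dvd hs
    · intro x hx
      rw [Set.Finite.coe_toFinset] at hx
      obtain ⟨r, rfl⟩ := hx
      show ‖(r : E ≃ₗᵢ[ℝ] E) p‖ = 1
      rw [LinearIsometryEquiv.norm_map, hp]
    · intro x hx
      rw [Set.Finite.mem_toFinset] at hx ⊢
      obtain ⟨r, rfl⟩ := hx
      exact ⟨⟨g, hgG⟩ * r, rfl⟩
    · intro x hx
      rw [Set.Finite.mem_toFinset] at hx ⊢
      obtain ⟨r, rfl⟩ := hx
      exact ⟨⟨h, hhG⟩ * r, rfl⟩
  have hcard : hfin.toFinset.card = (MulAction.stabilizer G p).index := by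
    rw [MulAction.index_stabilizer, Set.ncard_eq_toFinset_card _ hfin]
  have hle : (P : Subgroup G) ≤ MulAction.stabilizer G p := by
    intro r hr
    rw [MulAction.mem_stabilizer_iff, hsm]
    exact hpf r hr
  have hdvd := Subgroup.index_dvd_of_le hle
  have hnd : ¬ 3 ∣ (P : Subgroup G).index := P.not_dvd_index
  rw [hcard] at h3
  exact hnd (h3.trans hdvd)

/-- Linear isometries of Euclidean 3-space (the group `O_3`). -/
abbrev Iso := E ≃ₗᵢ[ℝ] E

/-- The image point `g(x)`. -/
noncomputable def act (g : Iso) (x : E) : E := g x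

/-- The opposite point `-x`. -/
noncomputable def opp (x : E) : E := -x

/-- The image set `g(A)`. -/
def move (g : Iso) (A : Set E) : Set E := act g '' A

/-- `A`, `g(A)`, `h(A)` are pairwise disjoint with union `S^2`. -/
def Split (g h : Iso) (A : Set E) : Prop :=
  A ∪ move g A ∪ move h A = S2 ∧ Disjoint A (move g A) ∧ Disjoint A (move h A) ∧
    Disjoint (move g A) (move h A)

/-- `g` maps the finite set `O` into itself. -/
def Keeps (g : Iso) (O : Finset E) : Prop := ∀ x ∈ O, act g x ∈ O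

/-- `g(v)` is `v` or `-v`. -/
def Eigen (g : Iso) (v : E) : Prop := act g v = v ∨ act g v = opp v

/-- The set of elements of the group generated by `g` and `h`. -/
def generated (g h : Iso) : Set Iso := Subgroup.closure ({g, h} : Set Iso)

/-- The finite set `O` lies on the sphere. -/
def OnSphere (O : Finset E) : Prop := ∀ x ∈ O, x ∈ S2

/-- **Theorem.** Let `A, g(A), h(A)` be a splitting of `S^2` into three pairwise congruent pieces,
`g, h ∈ O_3`. Then every finite set of points of `S^2` which `g` and `h` map into itself has a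
number of elements divisible by `3`; `g` and `h` have no common eigenvector; they generate an
infinite group; and none of `g`, `h`, `g⁻¹ h` is the antipodal map. -/
theorem result (g h : Iso) (A : Set E) (hs : Split g h A) :
    (∀ O, OnSphere O → Keeps g O → Keeps h O → 3 ∣ O.card) ∧
    (∀ v, v ≠ 0 → ¬ (Eigen g v ∧ Eigen h v)) ∧ (generated g h).Infinite ∧
    (¬ ∀ x, act g x = opp x) ∧ (¬ ∀ x, act h x = opp x) ∧
    (¬ ∀ x, act h x = opp (act g x)) := by
  have hs' : Sp g h A := ⟨hs.1, hs.2.1, hs.2.2.1, hs.2.2.2⟩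
  refine ⟨fun O h1 h2 h3 => three_dvd hs' O (fun x hx => h1 x hx) h2 h3,
    fun v h1 h2 => no_common_axis hs' v h1 h2.1 h2.2, ?_, not_neg hs', not_neg (swap hs'),
    not_neg' hs'⟩
  exact Set.infinite_coe_iff.1 (infinite_group hs')

end Pool.Agent.Results.MP_8c2fb0_lc.Congruences
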